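import Pool.Agent.Work.MP_79fed9_lc.Cluster

namespace Pool.Agent.Work.MP_79fed9_lc

/-- Axioms of an integral relation algebra (associativity is not needed). -/
structure RAx (A : Type) [BooleanAlgebra A] where
  comp : A → A → A
  conv : A → A
  e : A
  add : ∀ x y z : A, comp (x ⊔ y) z = comp x z ⊔ comp y z
  ide : ∀ x : A, comp x e = x
  cc : ∀ x : A, conv (conv x) = x
  cadd : ∀ x y : A, conv (x ⊔ y) = conv x ⊔ conv y
  cmul : ∀ x y : A, conv (comp x y) = comp (conv y) (conv x)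
  tar : ∀ x y : A, comp (conv x) (comp x y)ᶜ ≤ yᶜ
  ne : e ≠ ⊥
  integ : ∀ x y : A, comp x y = ⊥ → x = ⊥ ∨ y = ⊥

section Atoms

variable {A : Type} [BooleanAlgebra A]

lemma atom_le_iff {c z : A} (hc : IsAtom c) : c ≤ z ↔ ¬ z ≤ cᶜ := by
  constructor
  · intro h h2
    have : c ≤ cᶜ := h.trans h2
    exact hc.1 (le_bot_iff.mp (by rw [← inf_compl_self c]; exact le_inf le_rfl this))
  · intro h
    by_contra hcz
    apply h
    rw [le_compl_iff_disjoint_right, disjoint_comm, disjoint_iff]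
    rcases hc.le_iff.mp (inf_le_left : c ⊓ z ≤ c) with h1 | h1
    · exact h1
    · exact absurd (inf_eq_left.mp h1) hcz

lemma atom_eq {a b : A} (ha : IsAtom a) (hb : IsAtom b) (h : a ≤ b) : a = b :=
  (hb.le_iff_eq ha.1).mp h

end Atoms

namespace RAx

variable {A : Type} [BooleanAlgebra A] (R : RAx A)

lemma conv_mono {x y : A} (h : x ≤ y) : R.conv x ≤ R.conv y := by
  rw [← sup_eq_right.mpr h, R.cadd]
  exact le_sup_left

/-- Converse as an order isomorphism. -/
def cvIso : A ≃o A where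
  toFun := R.conv
  invFun := R.conv
  left_inv := R.cc
  right_inv := R.cc
  map_rel_iff' := by
    intro a b
    constructor
    · intro h
      have := R.conv_mono h
      simpa [R.cc] using this
    · exact R.conv_mono

lemma cvIso_apply (x : A) : R.cvIso x = R.conv x := rfl

lemma conv_compl (x : A) : R.conv xᶜ = (R.conv x)ᶜ := map_compl' R.cvIso x

lemma conv_le_conv {x y : A} : R.conv x ≤ R.conv y ↔ x ≤ y := R.cvIso.le_iff_le

lemma conv_atom {a : A} (h : IsAtom a) : IsAtom (R.conv a) := (R.cvIso.isAtom_iff a).mpr h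

lemma mono_left {x y : A} (z : A) (h : x ≤ y) : R.comp x z ≤ R.comp y z := by
  rw [← sup_eq_right.mpr h, R.add]
  exact le_sup_left

lemma mono_right (x : A) {y z : A} (h : y ≤ z) : R.comp x y ≤ R.comp x z := by
  rw [← R.conv_le_conv, R.cmul, R.cmul]
  exact R.mono_left _ (R.conv_mono h)

lemma mono {x y z w : A} (h : x ≤ y) (h' : z ≤ w) : R.comp x z ≤ R.comp y w :=
  (R.mono_left z h).trans (R.mono_right y h')

lemma peirceA {x y z : A} (h : R.comp x y ≤ zᶜ) : R.comp (R.conv x) z ≤ yᶜ :=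
  (R.mono_right _ (le_compl_comm.mp h)).trans (R.tar x y)

lemma peirce1 {x y z : A} : R.comp x y ≤ zᶜ ↔ R.comp (R.conv x) z ≤ yᶜ := by
  constructor
  · exact R.peirceA
  · intro h
    have := R.peirceA h
    rwa [R.cc] at this

lemma peirce2 {x y z : A} : R.comp x y ≤ zᶜ ↔ R.comp z (R.conv y) ≤ xᶜ := by
  rw [← R.conv_le_conv, R.cmul, R.conv_compl, R.peirce1, R.cc, ← R.conv_compl,
    ← R.conv_le_conv, R.cmul, R.cc, R.cc]

lemma conv_e : R.conv R.e = R.e := by
  have h := R.cmul (R.conv R.e) R.e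
  rw [R.ide, R.cc, R.ide] at h
  exact h.symm

lemma e_comp (x : A) : R.comp R.e x = x := by
  have h := R.cmul (R.conv x) R.e
  rw [R.ide, R.cc, R.conv_e] at h
  exact h.symm

lemma e_atom : IsAtom R.e := by
  refine ⟨R.ne, fun b hb => ?_⟩
  have h1 : R.comp b (R.e ⊓ bᶜ) ≤ b := by
    calc R.comp b (R.e ⊓ bᶜ) ≤ R.comp b R.e := R.mono_right _ inf_le_left
      _ = b := R.ide b
  have h2 : R.comp b (R.e ⊓ bᶜ) ≤ R.e ⊓ bᶜ := by
    calc R.comp b (R.e ⊓ bᶜ) ≤ R.comp R.e (R.e ⊓ bᶜ) := R.mono_left _ hb.le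
      _ = R.e ⊓ bᶜ := R.e_comp _
  have h3 : R.comp b (R.e ⊓ bᶜ) = ⊥ := by
    rw [← le_bot_iff, ← inf_compl_self b]
    exact le_inf h1 (h2.trans inf_le_right)
  rcases R.integ _ _ h3 with h | h
  · exact h
  · exfalso
    rw [← disjoint_iff, disjoint_compl_right_iff] at h
    exact absurd h (not_le_of_gt hb)

/-- Peirce law for atoms, first form. -/
lemma p1' {a b c : A} (hb : IsAtom b) (hc : IsAtom c) (h : c ≤ R.comp a b) :
    b ≤ R.comp (R.conv a) c := by
  rw [atom_le_iff hb]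
  rw [atom_le_iff hc] at h
  rwa [← R.peirce1]

/-- Peirce law for atoms, second form. -/
lemma p2' {a b c : A} (ha : IsAtom a) (hc : IsAtom c) (h : c ≤ R.comp a b) :
    a ≤ R.comp c (R.conv b) := by
  rw [atom_le_iff ha]
  rw [atom_le_iff hc] at h
  rwa [← R.peirce2]

/-- The diversity atoms. -/
abbrev DA : Type := {a : A // IsAtom a ∧ a ≤ R.eᶜ}

/-- The cycle structure. -/
def cyc (f : A) (hf : IsAtom f) (hfe : f ≤ R.eᶜ)
    (hflex : ∀ a b : A, IsAtom a → IsAtom b → a ≤ R.eᶜ → b ≤ R.eᶜ → f ≤ R.comp a b) :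
    Cyc R.DA where
  cv := fun a => ⟨R.conv a.1, R.conv_atom a.2.1, by
    have := R.conv_mono a.2.2
    rwa [R.conv_compl, R.conv_e] at this⟩
  C := fun a b c => c.1 ≤ R.comp a.1 b.1
  f := ⟨f, hf, hfe⟩
  cv_cv := fun a => Subtype.ext (R.cc a.1)
  p1 := fun a b c h => R.p1' b.2.1 c.2.1 h
  p2 := fun a b c h => R.p2' a.2.1 c.2.1 h
  flex := fun a b => hflex _ _ a.2.1 b.2.1 a.2.2 b.2.2

lemma atom_cases {a : A} (ha : IsAtom a) : a = R.e ∨ a ≤ R.eᶜ := by
  by_cases h : a ≤ R.e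
  · exact Or.inl (atom_eq ha R.e_atom h)
  · right
    by_contra h2
    apply h
    have h3 := (atom_le_iff (z := a) R.e_atom).mpr h2
    exact (atom_eq R.e_atom ha h3).symm.le

section Rep

variable {f : A} {hf : IsAtom f} {hfe : f ≤ R.eᶜ}
  {hflex : ∀ a b : A, IsAtom a → IsAtom b → a ≤ R.eᶜ → b ≤ R.eᶜ → f ≤ R.comp a b}
  {U : Type} (M : Model (R.cyc f hf hfe hflex) U)

open Classical in
/-- The atom at a pair of points. -/
noncomputable def at' (x y : U) : A := if x = y then R.e else (M.lab x y).1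

lemma at_self (x : U) : R.at' M x x = R.e := if_pos rfl

lemma at_ne {x y : U} (h : x ≠ y) : R.at' M x y = (M.lab x y).1 := if_neg h

lemma at_atom (x y : U) : IsAtom (R.at' M x y) := by
  by_cases h : x = y
  · subst h; rw [R.at_self M]; exact R.e_atom
  · rw [R.at_ne M h]; exact (M.lab x y).2.1

lemma at_conv (x y : U) : R.at' M y x = R.conv (R.at' M x y) := by
  by_cases h : x = y
  · subst h; rw [R.at_self M, R.conv_e]
  · rw [R.at_ne M h, R.at_ne M (Ne.symm h), M.l1 x y h]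
    rfl

lemma at_tri (x y z : U) : R.at' M x z ≤ R.comp (R.at' M x y) (R.at' M y z) := by
  by_cases hxy : x = y
  · subst hxy
    rw [R.at_self M, R.e_comp]
  · by_cases hyz : y = z
    · subst hyz
      rw [R.at_self M, R.ide]
    · by_cases hxz : x = z
      · subst hxz
        rw [R.at_self M, R.at_conv M x y]
        refine R.p2' R.e_atom (R.at_atom M x y) ?_
        rw [R.e_comp]
      · rw [R.at_ne M hxy, R.at_ne M hyz, R.at_ne M hxz]
        exact M.l2 x y z hxy hyz hxz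

lemma at_ex (x z : U) {a b : A} (ha : IsAtom a) (hb : IsAtom b)
    (h : R.at' M x z ≤ R.comp a b) : ∃ y, R.at' M x y = a ∧ R.at' M y z = b := by
  rcases R.atom_cases ha with rfl | hae
  · rw [R.e_comp] at h
    exact ⟨x, R.at_self M x, atom_eq (R.at_atom M x z) hb h⟩
  · rcases R.atom_cases hb with rfl | hbe
    · rw [R.ide] at h
      exact ⟨z, atom_eq (R.at_atom M x z) ha h, R.at_self M z⟩
    · by_cases hxz : x = z
      · subst hxz
        rw [R.at_self M] at h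
        have h1 := R.p1' hb R.e_atom h
        rw [R.ide] at h1
        have h2 := atom_eq hb (R.conv_atom ha) h1
        obtain ⟨y, hy, e1⟩ := M.l4 x ⟨a, ha, hae⟩
        refine ⟨y, ?_, ?_⟩
        · rw [R.at_ne M (Ne.symm hy), e1]
        · rw [R.at_conv M x y, R.at_ne M (Ne.symm hy), e1, h2]
      · rw [R.at_ne M hxz] at h
        obtain ⟨y, h1, h2, h3, h4⟩ := M.l3 x z hxz ⟨a, ha, hae⟩ ⟨b, hb, hbe⟩ h
        refine ⟨y, ?_, ?_⟩
        · rw [R.at_ne M (Ne.symm h1), h3]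
        · rw [R.at_ne M h2, h4]

/-- The representation on `U`. -/
def rep (x : A) : Set (U × U) := {p | R.at' M p.1 p.2 ≤ x}

lemma mem_rep {x : A} {p : U × U} : p ∈ R.rep M x ↔ R.at' M p.1 p.2 ≤ x := Iff.rfl

lemma rep_compl (x : A) : R.rep M xᶜ = (R.rep M x)ᶜ := by
  ext p
  rw [Set.mem_compl_iff, mem_rep, mem_rep, atom_le_iff (R.at_atom M _ _), not_iff_not,
    compl_le_compl_iff_le]

lemma rep_sup (x y : A) : R.rep M (x ⊔ y) = R.rep M x ∪ R.rep M y := by
  ext p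
  rw [Set.mem_union, mem_rep, mem_rep, mem_rep]
  constructor
  · intro h
    by_contra hcon
    push Not at hcon
    obtain ⟨h1, h2⟩ := hcon
    rw [atom_le_iff (R.at_atom M _ _), not_not] at h1 h2
    exact (atom_le_iff (R.at_atom M _ _)).mp h (sup_le h1 h2)
  · rintro (h | h)
    · exact h.trans le_sup_left
    · exact h.trans le_sup_right

lemma rep_conv (x : A) : R.rep M (R.conv x) = {p | (p.2, p.1) ∈ R.rep M x} := by
  ext p
  show R.at' M p.1 p.2 ≤ R.conv x ↔ R.at' M p.2 p.1 ≤ x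
  rw [R.at_conv M p.2 p.1, R.conv_le_conv]

lemma rep_e : R.rep M R.e = {p | p.1 = p.2} := by
  ext p
  show R.at' M p.1 p.2 ≤ R.e ↔ p.1 = p.2
  constructor
  · intro h
    by_contra hne
    rw [R.at_ne M hne] at h
    have h1 := (M.lab p.1 p.2).2
    have h2 : (M.lab p.1 p.2).1 ≤ ⊥ := by
      rw [← inf_compl_self R.e]
      exact le_inf h h1.2
    exact h1.1.1 (le_bot_iff.mp h2)
  · intro h
    rw [h, R.at_self M]

lemma rep_comp [Finite A] (x y : A) :
    R.rep M (R.comp x y) = {p | ∃ z, (p.1, z) ∈ R.rep M x ∧ (z, p.2) ∈ R.rep M y} := by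
  have : IsAtomic A := Finite.to_isAtomic
  have hat : ∀ z w : A, ¬ z ≤ wᶜ → ∃ a, IsAtom a ∧ a ≤ z ∧ a ≤ w := by
    intro z w h
    have hne : z ⊓ w ≠ ⊥ := by
      intro h2
      apply h
      rw [le_compl_iff_disjoint_right, disjoint_iff]
      exact h2
    obtain ⟨a, ha, hle⟩ := (IsAtomic.eq_bot_or_exists_atom_le (z ⊓ w)).resolve_left hne
    exact ⟨a, ha, hle.trans inf_le_left, hle.trans inf_le_right⟩
  ext p
  show R.at' M p.1 p.2 ≤ R.comp x y ↔ ∃ z, R.at' M p.1 z ≤ x ∧ R.at' M z p.2 ≤ y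
  constructor
  · intro h
    have hc := R.at_atom M p.1 p.2
    rw [atom_le_iff hc, R.peirce1] at h
    obtain ⟨b, hb, hb1, hb2⟩ := hat _ _ h
    rw [atom_le_iff hb, ← R.peirce1, R.peirce2] at hb1
    obtain ⟨a, ha, ha1, ha2⟩ := hat _ _ hb1
    rw [atom_le_iff ha, ← R.peirce2, ← atom_le_iff hc] at ha1
    obtain ⟨z, h1, h2⟩ := R.at_ex M p.1 p.2 ha hb ha1
    exact ⟨z, h1.le.trans ha2, h2.le.trans hb2⟩
  · rintro ⟨z, h1, h2⟩
    exact (R.at_tri M p.1 z p.2).trans (R.mono h1 h2)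

lemma rep_inj [Finite A] [Nonempty U] : Function.Injective (R.rep M) := by
  have : IsAtomic A := Finite.to_isAtomic
  have key : ∀ x y : A, R.rep M x = R.rep M y → x ≤ y := by
    intro x y h
    by_contra hxy
    have hne : x ⊓ yᶜ ≠ ⊥ := by
      intro h2
      apply hxy
      rw [← disjoint_iff, disjoint_compl_right_iff] at h2
      exact h2
    obtain ⟨a, ha, hle⟩ := (IsAtomic.eq_bot_or_exists_atom_le (x ⊓ yᶜ)).resolve_left hne
    obtain ⟨u⟩ := ‹Nonempty U›
    obtain ⟨v, hv⟩ : ∃ v, R.at' M u v = a := by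
      rcases R.atom_cases ha with rfl | hae
      · exact ⟨u, R.at_self M u⟩
      · obtain ⟨v, hv, e1⟩ := M.l4 u ⟨a, ha, hae⟩
        exact ⟨v, by rw [R.at_ne M (Ne.symm hv), e1]⟩
    have h1 : (u, v) ∈ R.rep M x := by
      rw [mem_rep, hv]; exact hle.trans inf_le_left
    rw [h, mem_rep, hv] at h1
    have h2 : a ≤ yᶜ := hle.trans inf_le_right
    have h3 : a ≤ ⊥ := by rw [← inf_compl_self y]; exact le_inf h1 h2
    exact ha.1 (le_bot_iff.mp h3)
  intro x y h
  exact le_antisymm (key x y h) (key y x h.symm)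

end Rep

/-- The flexible atom theorem. -/
theorem main [Fintype A]
    (hf : ∃ f : A, IsAtom f ∧ f ≤ R.eᶜ ∧
        ∀ a b : A, IsAtom a → IsAtom b → a ≤ R.eᶜ → b ≤ R.eᶜ → f ≤ R.comp a b) :
    ∃ (n : ℕ) (h : A → Set (Fin n × Fin n)),
        Function.Injective h ∧
        (∀ x y : A, h (x ⊔ y) = h x ∪ h y) ∧
        (∀ x : A, h xᶜ = (h x)ᶜ) ∧
        (∀ x y : A, h (R.comp x y) =
          {p : Fin n × Fin n | ∃ z : Fin n, (p.1, z) ∈ h x ∧ (z, p.2) ∈ h y}) ∧
        (∀ x : A, h (R.conv x) = {p : Fin n × Fin n | (p.2, p.1) ∈ h x}) ∧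
        h R.e = {p : Fin n × Fin n | p.1 = p.2} := by
  obtain ⟨f, hf1, hf2, hf3⟩ := hf
  obtain ⟨U, hU, hU2, ⟨M⟩⟩ := exists_model R.DA (R.cyc f hf1 hf2 hf3)
  have := Fintype.ofFinite U
  let o := Fintype.equivFin U
  let g : Fin (Fintype.card U) × Fin (Fintype.card U) → U × U := fun p => (o.symm p.1, o.symm p.2)
  have hg : Function.Surjective g := by
    rintro ⟨u, v⟩
    exact ⟨(o u, o v), by simp [g]⟩
  refine ⟨Fintype.card U, fun x => g ⁻¹' (R.rep M x), ?_, ?_, ?_, ?_, ?_, ?_⟩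
  · intro x y h
    exact R.rep_inj M (hg.preimage_injective h)
  · intro x y
    show g ⁻¹' (R.rep M (x ⊔ y)) = _
    rw [R.rep_sup, Set.preimage_union]
  · intro x
    show g ⁻¹' (R.rep M xᶜ) = _
    rw [R.rep_compl, Set.preimage_compl]
  · intro x y
    show g ⁻¹' (R.rep M (R.comp x y)) = _
    rw [R.rep_comp]
    ext p
    constructor
    · rintro ⟨z, h1, h2⟩
      refine ⟨o z, ?_, ?_⟩
      · show (o.symm p.1, o.symm (o z)) ∈ R.rep M x
        rw [Equiv.symm_apply_apply]; exact h1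
      · show (o.symm (o z), o.symm p.2) ∈ R.rep M y
        rw [Equiv.symm_apply_apply]; exact h2
    · rintro ⟨z, h1, h2⟩
      exact ⟨o.symm z, h1, h2⟩
  · intro x
    show g ⁻¹' (R.rep M (R.conv x)) = _
    rw [R.rep_conv]
    rfl
  · show g ⁻¹' (R.rep M R.e) = _
    rw [R.rep_e]
    ext p
    show o.symm p.1 = o.symm p.2 ↔ p.1 = p.2
    exact o.symm.injective.eq_iff

end RAx

end Pool.Agent.Work.MP_79fed9_lc
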