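import Pool.Agent.Work.MP_79fed9_lc.Gadget

namespace Pool.Agent.Work.MP_79fed9_lc

open Finset

section Cluster

variable {D : Type} [DecidableEq D] [Fintype D]

/-- Generators of the cluster group. -/
abbrev GG (D : Type) : Type := D × RR D × D × Fin 3

/-- The cluster group. -/
abbrev FF (D : Type) : Type := GG D → ZMod 5

/-- The generator `p`. -/
def gen (p : GG D) : FF D := Pi.single p 1

lemma gen_apply (p x : GG D) : (gen p : FF D) x = if x = p then 1 else 0 := by
  simp only [gen, Pi.single_apply]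

/-- Sum of the coordinates. -/
def sm (g : FF D) : ZMod 5 := ∑ p, g p

lemma sm_add (g h : FF D) : sm (g + h) = sm g + sm h := by
  simp only [sm, Pi.add_apply, sum_add_distrib]

lemma sm_gen (p : GG D) : sm (gen p : FF D) = 1 := by
  simp only [sm, gen_apply, sum_ite_eq', mem_univ, if_true]

/-- The homomorphism determined by the images `η` of the generators. -/
def act (η : GG D → RR D) (g : FF D) : RR D := ∑ p, g p • η p

lemma act_add (η : GG D → RR D) (g h : FF D) : act η (g + h) = act η g + act η h := by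
  simp only [act, Pi.add_apply, add_smul, sum_add_distrib]

lemma act_gen (η : GG D → RR D) (p : GG D) : act η (gen p) = η p := by
  simp only [act, gen_apply, ite_smul, one_smul, zero_smul, sum_ite_eq', mem_univ, if_true]

lemma act_update (η : GG D → RR D) (p : GG D) (ξ : RR D) (g : FF D) :
    act (Function.update η p ξ) g = act (Function.update η p 0) g + g p • ξ := by
  have h : ∀ q, g q • Function.update η p ξ q
      = g q • Function.update η p 0 q + if q = p then g p • ξ else 0 := by
    intro q
    by_cases hq : q = p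
    · subst hq
      simp
    · rw [Function.update_of_ne hq, Function.update_of_ne hq, if_neg hq, add_zero]
  simp only [act]
  rw [sum_congr rfl fun q _ => h q, sum_add_distrib, sum_ite_eq' univ p, if_pos (mem_univ p)]

variable (S : Cyc D)

open Classical in
/-- The base choice of images. -/
noncomputable def base (p : GG D) : RR D :=
  if h : S.C p.1 p.2.2.1 (Psi S p.2.1) then (G2 S p.2.1 p.1 p.2.2.1 h).choose else (0, 1)

lemma base_mem (p : GG D) : base S p ∈ HH S p.1 := by
  unfold base
  split_ifs with h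
  · exact (G2 S p.2.1 p.1 p.2.2.1 h).choose_spec.1
  · apply free_mem
    show (1 : ZMod 5) ≠ 0
    decide

lemma base_spec (a : D) (σ : RR D) (b : D) (s : Fin 3) (h : S.C a b (Psi S σ)) :
    Psi S (σ + base S (a, σ, b, s)) = b := by
  unfold base
  rw [dif_pos h]
  exact (G2 S σ a b h).choose_spec.2

/-- The admissible types. -/
abbrev LL (S : Cyc D) : Type := {x : (GG D → RR D) × RR D //
  (∀ p, x.1 p ∈ HH S p.1) ∧
  ∀ σ a b, S.C a b (Psi S σ) → ∃ p : GG D, p.1 = a ∧ Psi S (σ + x.1 p) = b}

lemma good_of_two {η : GG D → RR D} (p1 p2 : GG D)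
    (h : ∀ p, p ≠ p1 → p ≠ p2 → η p = base S p) (σ : RR D) (a b : D)
    (hC : S.C a b (Psi S σ)) : ∃ p : GG D, p.1 = a ∧ Psi S (σ + η p) = b := by
  have hs : ∀ x y : Fin 3, ∃ s, s ≠ x ∧ s ≠ y := by decide
  obtain ⟨s, h1, h2⟩ := hs p1.2.2.2 p2.2.2.2
  refine ⟨(a, σ, b, s), rfl, ?_⟩
  rw [h]
  · exact base_spec S a σ b s hC
  · rintro rfl; exact h1 rfl
  · rintro rfl; exact h2 rfl

open Classical in
/-- The labelling of the cluster. -/
noncomputable def lam (o : FF D → ℕ) (h h' : FF D) : D :=
  if H : ∃ p, h' = h + gen p then H.choose.1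
  else if H : ∃ p, h = h' + gen p then S.cv H.choose.1
  else dfl S o h h'

lemma gen_inj {p q : GG D} (h : (gen p : FF D) = gen q) : p = q := by
  have h1 := congrFun h p
  rw [gen_apply, gen_apply, if_pos rfl] at h1
  by_contra hne
  rw [if_neg hne] at h1
  revert h1
  decide

lemma not_both {h h' : FF D} {p q : GG D} (h1 : h' = h + gen p) (h2 : h = h' + gen q) : False := by
  have e1 := congrArg sm h1
  have e2 := congrArg sm h2
  rw [sm_add, sm_gen] at e1 e2
  rw [e1] at e2
  have hv : ∀ x : ZMod 5, x = x + 1 + 1 → False := by decide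
  exact hv _ e2

lemma lam_gen (o : FF D → ℕ) {h h' : FF D} {p : GG D} (e : h' = h + gen p) :
    lam S o h h' = p.1 := by
  unfold lam
  have H : ∃ p, h' = h + gen p := ⟨p, e⟩
  rw [dif_pos H]
  have h2 : (gen H.choose : FF D) = gen p := by
    have := H.choose_spec.symm.trans e
    exact add_left_cancel this
  rw [gen_inj h2]

lemma lam_gen' (o : FF D → ℕ) {h h' : FF D} {p : GG D} (e : h = h' + gen p) :
    lam S o h h' = S.cv p.1 := by
  unfold lam
  have H0 : ¬ ∃ p, h' = h + gen p := by
    rintro ⟨q, hq⟩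
    exact not_both hq e
  have H : ∃ p, h = h' + gen p := ⟨p, e⟩
  rw [dif_neg H0, dif_pos H]
  have h2 : (gen H.choose : FF D) = gen p := by
    have := H.choose_spec.symm.trans e
    exact add_left_cancel this
  rw [gen_inj h2]

lemma lam_def (o : FF D → ℕ) {h h' : FF D} (H1 : ¬ ∃ p, h' = h + gen p)
    (H2 : ¬ ∃ p, h = h' + gen p) : lam S o h h' = dfl S o h h' := by
  unfold lam
  rw [dif_neg H1, dif_neg H2]

lemma lam_cv (o : FF D → ℕ) (ho : Function.Injective o) {h h' : FF D} (hne : h ≠ h') :
    lam S o h' h = S.cv (lam S o h h') := by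
  by_cases H1 : ∃ p, h' = h + gen p
  · obtain ⟨p, e⟩ := H1
    rw [lam_gen S o e, lam_gen' S o e]
  · by_cases H2 : ∃ p, h = h' + gen p
    · obtain ⟨p, e⟩ := H2
      rw [lam_gen S o e, lam_gen' S o e, S.cv_cv]
    · rw [lam_def S o H1 H2, lam_def S o H2 H1]
      exact dfl_cv S o ho hne

lemma lam_fl_or (o : FF D → ℕ) (h h' : FF D) :
    S.Fl (lam S o h h') ∨ sm h' = sm h + 1 ∨ sm h = sm h' + 1 := by
  by_cases H1 : ∃ p, h' = h + gen p
  · obtain ⟨p, e⟩ := H1
    right; left
    rw [e, sm_add, sm_gen]
  · by_cases H2 : ∃ p, h = h' + gen p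
    · obtain ⟨p, e⟩ := H2
      right; right
      rw [e, sm_add, sm_gen]
    · left
      rw [lam_def S o H1 H2]
      exact dfl_fl S o _ _

/-- Key lemma: types with prescribed values at two points. -/
lemma type_of_act {h h' : FF D} {a b : D} {σ σ' : RR D} (ha : Psi S σ = a) (hb : Psi S σ' = b)
    (η : GG D → RR D) (hη : ∀ p, η p ∈ HH S p.1)
    (hg : ∀ σ a b, S.C a b (Psi S σ) → ∃ p : GG D, p.1 = a ∧ Psi S (σ + η p) = b)
    (hact : act η (h' - h) = σ' - σ) :
    ∃ l : LL S, Psi S (act l.1.1 h + l.1.2) = a ∧ Psi S (act l.1.1 h' + l.1.2) = b := by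
  refine ⟨⟨(η, σ - act η h), hη, hg⟩, ?_, ?_⟩
  · show Psi S (act η h + (σ - act η h)) = a
    rw [add_sub_cancel, ha]
  · show Psi S (act η h' + (σ - act η h)) = b
    have h1 : act η h' = act η (h' - h) + act η h := by
      rw [← act_add, sub_add_cancel]
    rw [h1, hact]
    have h2 : σ' - σ + act η h + (σ - act η h) = σ' := by abel
    rw [h2, hb]

lemma update_mem {η : GG D → RR D} (hη : ∀ p, η p ∈ HH S p.1) (q : GG D) {ξ : RR D}
    (hξ : ξ ∈ HH S q.1) (p : GG D) : Function.update η q ξ p ∈ HH S p.1 := by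
  by_cases hp : p = q
  · subst hp
    rw [Function.update_self]
    exact hξ
  · rw [Function.update_of_ne hp]
    exact hη p

/-- Types with prescribed values at two points whose difference is a generator. -/
lemma type_gen {h h' : FF D} {p : GG D} (e : h' = h + gen p) (a b : D)
    (hC : S.C p.1 b a) :
    ∃ l : LL S, Psi S (act l.1.1 h + l.1.2) = a ∧ Psi S (act l.1.1 h' + l.1.2) = b := by
  have ha : Psi S (pt (a, 0)) = a := Psi_pt S _
  obtain ⟨ξ, hξ, hb⟩ := G2 S (pt (a, 0)) p.1 b (by rw [ha]; exact hC)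
  refine type_of_act S ha hb (Function.update (base S) p ξ)
    (update_mem S (base_mem S) p hξ) ?_ ?_
  · refine good_of_two S p p ?_
    intro q hq _
    rw [Function.update_of_ne hq]
  · rw [e, add_sub_cancel_left, act_gen, Function.update_self, add_sub_cancel_left]

/-- Types with prescribed values at two points whose difference is neither a generator nor the
opposite of one. -/
lemma type_far {h h' : FF D} (hne : h ≠ h') (H1 : ¬ ∃ p, h' = h + gen p)
    (H2 : ¬ ∃ p, h = h' + gen p) (a b : D) :
    ∃ l : LL S, Psi S (act l.1.1 h + l.1.2) = a ∧ Psi S (act l.1.1 h' + l.1.2) = b := by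
  set g := h' - h with hg
  have hg0 : g ≠ 0 := by
    intro h0
    exact hne (sub_eq_zero.mp h0).symm
  have ha : Psi S (pt (a, 0)) = a := Psi_pt S _
  have hb : Psi S (pt (b, 1)) = b := Psi_pt S _
  obtain ⟨p, hp⟩ : ∃ p, g p ≠ 0 := by
    by_contra hcon
    push Not at hcon
    exact hg0 (funext hcon)
  by_cases hq : ∃ q, q ≠ p ∧ g q ≠ 0
  · obtain ⟨q, hqp, hq⟩ := hq
    -- choose the value of the second coordinate
    set ρ : RR D := pt (b, 1) - pt (a, 0) with hρ
    set c0 := act (Function.update (Function.update (base S) p 0) q 0) g with hc0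
    have hv : ∀ c t : ZMod 5, t ≠ 0 → ∃ v, v ≠ 0 ∧ c - t * v ≠ 0 := by decide
    obtain ⟨v, hv0, hv1⟩ := hv (ρ.2 - c0.2) (g q) hq
    set ξ : RR D := (g p)⁻¹ • (ρ - (c0 + g q • ((0 : D × Fin 3 → ZMod 5), v))) with hξ
    have hξ2 : ξ.2 ≠ 0 := by
      have : ξ.2 = (g p)⁻¹ * (ρ.2 - c0.2 - g q * v) := by
        rw [hξ]
        simp only [Prod.snd_sub, Prod.snd_add, Prod.smul_snd, smul_eq_mul]
        ring
      rw [this]
      haveI : Fact (Nat.Prime 5) := ⟨by norm_num⟩
      exact mul_ne_zero (inv_ne_zero hp) hv1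
    set η := Function.update (Function.update (base S) q ((0 : D × Fin 3 → ZMod 5), v)) p ξ
      with hη
    refine type_of_act S ha hb η ?_ ?_ ?_
    · refine update_mem S (update_mem S (base_mem S) q (free_mem S _ ?_)) p (free_mem S _ hξ2)
      exact hv0
    · refine good_of_two S p q ?_
      intro x hx1 hx2
      rw [hη, Function.update_of_ne hx1, Function.update_of_ne hx2]
    · rw [← hg, hη, act_update, Function.update_comm hqp, act_update, ← hc0, hξ, smul_smul]
      haveI : Fact (Nat.Prime 5) := ⟨by norm_num⟩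
      rw [mul_inv_cancel₀ hp, one_smul, hρ]
      abel
  · push Not at hq
    -- `g` is a multiple of a generator
    have hgp : g = g p • gen p := by
      funext x
      by_cases hx : x = p
      · subst hx
        simp [gen_apply]
      · rw [hq x hx]
        simp [gen_apply, hx]
    have h1 : g p ≠ 1 := by
      intro h1
      apply H1
      refine ⟨p, ?_⟩
      rw [h1, one_smul] at hgp
      rw [← hgp, hg]; abel
    have h2 : g p ≠ -1 := by
      intro h1
      apply H2
      refine ⟨p, ?_⟩
      rw [h1, neg_smul, one_smul] at hgp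
      have : gen p = -g := by rw [hgp, neg_neg]
      rw [this, hg]; abel
    set ρ : RR D := pt (b, 1) - pt (a, 0) with hρ
    set ξ : RR D := (g p)⁻¹ • ρ with hξ
    have hξm : ξ ∈ HH S p.1 := by
      intro x y hxy
      exfalso
      have h3 := congrFun (congrArg Prod.fst hxy) (b, 1)
      have hba : (b, (1 : Fin 3)) ≠ (a, (0 : Fin 3)) := by
        intro h
        have h4 : (1 : Fin 3) = 0 := congrArg Prod.snd h
        exact absurd h4 (by decide)
      simp only [hξ, hρ, Prod.fst_add, Pi.add_apply, Prod.smul_fst, Pi.smul_apply, Prod.fst_sub,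
        Pi.sub_apply, pt_apply, if_true, if_neg hba, smul_eq_mul] at h3
      have hv : ∀ t x y : ZMod 5, t ≠ 0 → t ≠ 1 → t ≠ -1 → (x = 0 ∨ x = 1) → (y = 0 ∨ y = 1) →
          t * (y - x) = 1 → False := by decide
      haveI : Fact (Nat.Prime 5) := ⟨by norm_num⟩
      refine hv (g p) (if (b, (1 : Fin 3)) = x then 1 else 0)
        (if (b, (1 : Fin 3)) = y then 1 else 0) hp h1 h2 ?_ ?_ ?_
      · split_ifs <;> simp
      · split_ifs <;> simp
      · rw [← h3]
        field_simp
        ring
    refine type_of_act S ha hb (Function.update (base S) p ξ)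
      (update_mem S (base_mem S) p hξm) ?_ ?_
    · refine good_of_two S p p ?_
      intro q hq _
      rw [Function.update_of_ne hq]
    · rw [← hg, act_update]
      have h3 : act (Function.update (base S) p 0) g = 0 := by
        unfold act
        refine sum_eq_zero fun x _ => ?_
        by_cases hx : x = p
        · subst hx
          simp
        · rw [hq x hx, zero_smul]
      rw [h3, zero_add, hξ, smul_smul]
      haveI : Fact (Nat.Prime 5) := ⟨by norm_num⟩
      rw [mul_inv_cancel₀ hp, one_smul]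

/-- The cluster. -/
noncomputable def clus (o : FF D → ℕ) (ho : Function.Injective o) : Cluster S (FF D) (LL S) where
  lam := lam S o
  phi := fun l h => Psi S (act l.1.1 h + l.1.2)
  c1 := fun h h' hne => lam_cv S o ho hne
  c2 := by
    intro h h' h'' h1 h2 h3
    rcases lam_fl_or S o h h' with e1 | e1
    · exact S.fl1 e1 _ _
    rcases lam_fl_or S o h' h'' with e2 | e2
    · exact S.fl2 e2 _ _
    rcases lam_fl_or S o h h'' with e3 | e3
    · exact S.fl3 e3 _ _
    exfalso
    have hv : ∀ x y z : ZMod 5, (y = x + 1 ∨ x = y + 1) → (z = y + 1 ∨ y = z + 1) →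
        (z = x + 1 ∨ x = z + 1) → False := by decide
    exact hv _ _ _ e1 e2 e3
  c3 := by
    intro l h h' hne
    by_cases H1 : ∃ p, h' = h + gen p
    · obtain ⟨p, e⟩ := H1
      rw [lam_gen S o e]
      have h1 : act l.1.1 h' + l.1.2 = (act l.1.1 h + l.1.2) + l.1.1 p := by
        rw [e, act_add, act_gen]; abel
      rw [h1]
      exact G1 S (l.2.1 p) _
    · by_cases H2 : ∃ p, h = h' + gen p
      · obtain ⟨p, e⟩ := H2
        rw [lam_gen' S o e]
        have h1 : act l.1.1 h + l.1.2 = (act l.1.1 h' + l.1.2) + l.1.1 p := by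
          rw [e, act_add, act_gen]; abel
        rw [h1]
        exact S.p1 _ _ _ (G1 S (l.2.1 p) _)
      · rw [lam_def S o H1 H2]
        exact S.fl1 (dfl_fl S o _ _) _ _
  c4 := by
    intro l h a b hC
    obtain ⟨p, hp, hb⟩ := l.2.2 _ a b hC
    refine ⟨h + gen p, ?_, ?_, ?_⟩
    · intro e
      have h1 := congrArg sm e
      rw [sm_add, sm_gen] at h1
      have hv : ∀ x : ZMod 5, x + 1 = x → False := by decide
      exact hv _ h1
    · rw [lam_gen S o rfl, hp]
    · rw [act_add, act_gen]
      rw [← hb]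
      congr 1
      abel
  c5 := by
    intro h h' hne a b hC
    by_cases H1 : ∃ p, h' = h + gen p
    · obtain ⟨p, e⟩ := H1
      rw [lam_gen S o e] at hC
      exact type_gen S e a (S.cv b) (S.p2 _ _ _ hC)
    · by_cases H2 : ∃ p, h = h' + gen p
      · obtain ⟨p, e⟩ := H2
        rw [lam_gen' S o e] at hC
        have h1 := S.p2 _ _ _ hC
        have h2 := S.p1 _ _ _ h1
        rw [S.cv_cv] at h2
        obtain ⟨l, e1, e2⟩ := type_gen S e (S.cv b) a h2
        exact ⟨l, e2, e1⟩
      · exact type_far S hne H1 H2 a (S.cv b)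
  c6 := by
    intro h a
    refine ⟨⟨(base S, pt (a, 0) - act (base S) h), base_mem S, ?_⟩, ?_⟩
    · intro σ a b hC
      exact ⟨(a, σ, b, 0), rfl, base_spec S a σ b 0 hC⟩
    · show Psi S (act (base S) h + (pt (a, 0) - act (base S) h)) = a
      rw [add_sub_cancel, Psi_pt]

end Cluster

/-- Every cycle structure with a flexible atom on a finite set has a finite model. -/
theorem exists_model (D : Type) [Finite D] (S : Cyc D) :
    ∃ (U : Type) (_ : Finite U) (_ : Nonempty U), Nonempty (Model S U) := by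
  classical
  haveI := Fintype.ofFinite D
  let o := Fintype.equivFin (FF D)
  have K := clus S (fun x => (o x : ℕ)) (fun i j h => o.injective (Fin.ext h))
  haveI : Nonempty (LL S) := by
    obtain ⟨l, -⟩ := K.c6 0 S.f
    exact ⟨l⟩
  exact model_of_cluster K

end Pool.Agent.Work.MP_79fed9_lc
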