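import Mathlib

namespace Pool.Agent.Work.MP_79fed9_lc

/-- The index set of the design: quadruples over a prime field. -/
abbrev Quad (p : ℕ) : Type := ZMod p × ZMod p × ZMod p × ZMod p

/-- The quadratic form `v0 v1 + v2 v3`. -/
def qf {p : ℕ} (v : Quad p) : ZMod p := v.1 * v.2.1 + v.2.2.1 * v.2.2.2

/-- The standard bilinear form. -/
def dt {p : ℕ} (s v : Quad p) : ZMod p :=
  s.1 * v.1 + s.2.1 * v.2.1 + s.2.2.1 * v.2.2.1 + s.2.2.2 * v.2.2.2

lemma solve_first {p : ℕ} [Fact p.Prime] (w0 w2 w3 s0 s2 s3 γ δ : ZMod p) (hw : w0 ≠ 0) :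
    ∃ v0 v2 v3 : ZMod p, w0 * v0 + w2 * v2 + w3 * v3 = γ ∧
      v2 * v3 + (s0 * v0 + s2 * v2 + s3 * v3) = δ := by
  set A := s2 - s0 * w2 / w0 with hA
  set B := s3 - s0 * w3 / w0 with hB
  set v2 := 1 - B with hv2
  set v3 := δ - s0 * γ / w0 + A * B - A with hv3
  refine ⟨(γ - w2 * v2 - w3 * v3) / w0, v2, v3, ?_, ?_⟩
  · field_simp
    ring
  · have h1 : v2 * v3 + (s0 * ((γ - w2 * v2 - w3 * v3) / w0) + s2 * v2 + s3 * v3)
        = (v2 + B) * (v3 + A) + s0 * γ / w0 - A * B := by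
      rw [hA, hB]
      field_simp
      ring
    rw [h1, hv2, hv3]
    ring

lemma solve_quad {p : ℕ} [Fact p.Prime] (w s : Quad p) (hw : w ≠ 0) (γ δ : ZMod p) :
    ∃ v : Quad p, dt w v = γ ∧ qf v + dt s v = δ := by
  obtain ⟨w0, w1, w2, w3⟩ := w
  obtain ⟨s0, s1, s2, s3⟩ := s
  by_cases h0 : w0 = 0
  · by_cases h1 : w1 = 0
    · by_cases h2 : w2 = 0
      · have h3 : w3 ≠ 0 := by
          intro h3
          apply hw
          simp [h0, h1, h2, h3]
        obtain ⟨v3, v0, v1, e1, e2⟩ := solve_first w3 w0 w1 s3 s0 s1 γ δ h3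
        refine ⟨(v0, v1, 0, v3), ?_, ?_⟩
        · simp only [dt]; linear_combination e1
        · simp only [dt, qf]; linear_combination e2
      · obtain ⟨v2, v0, v1, e1, e2⟩ := solve_first w2 w0 w1 s2 s0 s1 γ δ h2
        refine ⟨(v0, v1, v2, 0), ?_, ?_⟩
        · simp only [dt]; linear_combination e1
        · simp only [dt, qf]; linear_combination e2
    · obtain ⟨v1, v2, v3, e1, e2⟩ := solve_first w1 w2 w3 s1 s2 s3 γ δ h1
      refine ⟨(0, v1, v2, v3), ?_, ?_⟩
      · simp only [dt]; linear_combination e1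
      · simp only [dt, qf]; linear_combination e2
  · obtain ⟨v0, v2, v3, e1, e2⟩ := solve_first w0 w2 w3 s0 s2 s3 γ δ h0
    refine ⟨(v0, 0, v2, v3), ?_, ?_⟩
    · simp only [dt]; linear_combination e1
    · simp only [dt, qf]; linear_combination e2

/-- The design matrix over the prime field. -/
def mat {p : ℕ} (s v : Quad p) : ZMod p := qf s + qf v + dt s v

lemma mat_comm {p : ℕ} (s v : Quad p) : mat s v = mat v s := by
  simp only [mat, dt]; ring

lemma mat_rows {p : ℕ} [Fact p.Prime] (s s' : Quad p) (h : s ≠ s') (α β : ZMod p) :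
    ∃ v : Quad p, mat s v = α ∧ mat s' v = β := by
  obtain ⟨v, e1, e2⟩ := solve_quad (s - s') s (sub_ne_zero.mpr h)
    (α - β - qf s + qf s') (α - qf s)
  have e3 : dt (s - s') v = dt s v - dt s' v := by
    simp only [dt, Prod.fst_sub, Prod.snd_sub]; ring
  rw [e3] at e1
  refine ⟨v, ?_, ?_⟩
  · simp only [mat]; linear_combination e2
  · simp only [mat]; linear_combination e2 - e1

/-- For every nonempty finite type `L` there is a finite square matrix with entries in `L` such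
that any two distinct rows (and any two distinct columns) contain all pairs of entries. -/
theorem exists_design (L : Type) [Finite L] [Nonempty L] :
    ∃ (I : Type) (_ : Finite I) (_ : Nontrivial I) (Φ : I → I → L),
      (∀ i i' : I, i ≠ i' → ∀ l l' : L, ∃ j, Φ i j = l ∧ Φ i' j = l') ∧
      (∀ j j' : I, j ≠ j' → ∀ l l' : L, ∃ i, Φ i j = l ∧ Φ i j' = l') := by
  classical
  obtain ⟨p, hp1, hp⟩ := Nat.exists_infinite_primes (Nat.card L + 2)
  haveI : Fact p.Prime := ⟨hp⟩
  haveI : NeZero p := ⟨hp.ne_zero⟩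
  haveI := Fintype.ofFinite L
  obtain ⟨g, hg⟩ : ∃ g : ZMod p → L, Function.Surjective g := by
    have hcard : Fintype.card L ≤ Fintype.card (ZMod p) := by
      rw [ZMod.card, ← Nat.card_eq_fintype_card]; omega
    obtain ⟨emb⟩ := Function.Embedding.nonempty_of_card_le hcard
    exact ⟨Function.invFun emb, Function.invFun_surjective emb.injective⟩
  refine ⟨Quad p, inferInstance, ?_, fun s v => g (mat s v), ?_, ?_⟩
  · refine ⟨⟨0, (1, 0, 0, 0), ?_⟩⟩
    intro h
    have := congrArg Prod.fst h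
    simp at this
  · intro i i' hi l l'
    obtain ⟨α, rfl⟩ := hg l
    obtain ⟨β, rfl⟩ := hg l'
    obtain ⟨v, e1, e2⟩ := mat_rows i i' hi α β
    exact ⟨v, congrArg g e1, congrArg g e2⟩
  · intro j j' hj l l'
    obtain ⟨α, rfl⟩ := hg l
    obtain ⟨β, rfl⟩ := hg l'
    obtain ⟨v, e1, e2⟩ := mat_rows j j' hj α β
    refine ⟨v, ?_, ?_⟩
    · show g (mat v j) = g α
      rw [mat_comm, e1]
    · show g (mat v j') = g β
      rw [mat_comm, e2]

end Pool.Agent.Work.MP_79fed9_lc
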