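import Pool.Agent.Work.MP_79fed9_lc.Glue

namespace Pool.Agent.Work.MP_79fed9_lc

section Gadget

variable {D : Type} [DecidableEq D]

/-- The translation group of the gadget. -/
abbrev RR (D : Type) : Type := (D × Fin 3 → ZMod 5) × ZMod 5

/-- The labelled points of the gadget. -/
def pt (p : D × Fin 3) : RR D := (Pi.single p 1, 0)

lemma pt_apply (p x : D × Fin 3) : (pt p : RR D).1 x = if x = p then 1 else 0 := by
  simp only [pt, Pi.single_apply]

lemma pt_inj {p q : D × Fin 3} (h : (pt p : RR D) = pt q) : p = q := by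
  have h1 := congrFun (congrArg Prod.fst h) p
  rw [pt_apply, pt_apply, if_pos rfl] at h1
  by_contra hne
  rw [if_neg hne] at h1
  revert h1
  decide

variable (S : Cyc D)

open Classical in
/-- The label function on the gadget. -/
noncomputable def Psi (σ : RR D) : D := if h : ∃ p, σ = pt p then h.choose.1 else S.f

lemma Psi_pt (p : D × Fin 3) : Psi S (pt p) = p.1 := by
  unfold Psi
  have h : ∃ q, (pt p : RR D) = pt q := ⟨p, rfl⟩
  rw [dif_pos h]
  rw [← pt_inj h.choose_spec]

lemma Psi_not {σ : RR D} (h : ¬ ∃ p, σ = pt p) : Psi S σ = S.f := by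
  unfold Psi
  rw [dif_neg h]

/-- The translations compatible with `a`. -/
def HH (a : D) : Set (RR D) := {η | ∀ p q, pt p + η = pt q → S.C a q.1 p.1}

lemma G1 {a : D} {η : RR D} (hη : η ∈ HH S a) (σ : RR D) :
    S.C a (Psi S (σ + η)) (Psi S σ) := by
  by_cases h1 : ∃ p, σ = pt p
  · obtain ⟨p, rfl⟩ := h1
    by_cases h2 : ∃ q, pt p + η = pt q
    · obtain ⟨q, hq⟩ := h2
      rw [hq, Psi_pt, Psi_pt]
      exact hη p q hq
    · rw [Psi_not S h2]
      exact S.fl2 (Or.inl rfl) _ _
  · rw [Psi_not S h1]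
    exact S.flex _ _

lemma free_mem (a : D) {η : RR D} (h : η.2 ≠ 0) : η ∈ HH S a := by
  intro p q hpq
  exfalso
  apply h
  have := congrArg Prod.snd hpq
  simpa [pt] using this

lemma five_ne : (2 : ZMod 5) ≠ 0 ∧ (2 : ZMod 5) ≠ 1 ∧ (1 : ZMod 5) ≠ 0 ∧ (-1 : ZMod 5) ≠ 1 ∧
    (-1 : ZMod 5) ≠ 2 ∧ (0 : ZMod 5) ≠ 2 := by decide

lemma G2 (σ : RR D) (a b : D) (hC : S.C a b (Psi S σ)) : ∃ η ∈ HH S a, Psi S (σ + η) = b := by
  by_cases hσ : ∃ r, σ = pt r
  · obtain ⟨r, rfl⟩ := hσ
    rw [Psi_pt] at hC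
    obtain ⟨j, hj⟩ : ∃ j : Fin 3, j ≠ r.2 := ⟨r.2 + 1, by
      have : ∀ x : Fin 3, x + 1 ≠ x := by decide
      exact this r.2⟩
    have hjr : (b, j) ≠ r := by
      intro h
      exact hj (congrArg Prod.snd h)
    refine ⟨pt (b, j) - pt r, ?_, by rw [add_sub_cancel, Psi_pt]⟩
    intro p q hpq
    have h1 : pt p + pt (b, j) = pt r + pt q := by
      rw [← hpq]; abel
    have h2 := congrFun (congrArg Prod.fst h1) (b, j)
    simp only [Prod.fst_add, Pi.add_apply, pt_apply, if_true, if_neg hjr] at h2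
    have hqb : q = (b, j) := by
      by_contra hq
      rw [if_neg (fun e : (b, j) = q => hq e.symm)] at h2
      have hv : ∀ x : ZMod 5, (x = 0 ∨ x = 1) → x + 1 = 0 + 0 → False := by decide
      refine hv (if (b, j) = p then 1 else 0) ?_ h2
      split_ifs <;> simp
    subst hqb
    have h3 : pt p = pt r := add_right_cancel h1
    rw [pt_inj h3]
    exact hC
  · -- choose `j` avoiding the bad differences
    have hex : ∃ j : Fin 3, ∀ p q, pt p + (pt (b, j) - σ) ≠ pt q := by
      by_contra hcon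
      push Not at hcon
      have key : ∀ j : Fin 3, ∃ p q, q ≠ (b, j) ∧ pt p + pt (b, j) = σ + pt q := by
        intro j
        obtain ⟨p, q, h⟩ := hcon j
        refine ⟨p, q, ?_, ?_⟩
        · rintro rfl
          apply hσ
          refine ⟨p, ?_⟩
          have : pt p + (pt (b, j) - σ) - pt (b, j) = 0 := by rw [h]; abel
          have h2 : pt p - σ = 0 := by rw [← this]; abel
          exact (sub_eq_zero.mp h2).symm
        · rw [← h]; abel
      obtain ⟨p0, q0, -, e0⟩ := key 0
      have val : ∀ j : Fin 3, j ≠ 0 → p0 = (b, j) := by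
        intro j hj
        obtain ⟨p1, q1, hq1, e1⟩ := key j
        have h0 := congrFun (congrArg Prod.fst e0) (b, j)
        have h1 := congrFun (congrArg Prod.fst e1) (b, j)
        have hb0 : (b, j) ≠ (b, (0 : Fin 3)) := by
          intro h; exact hj (congrArg Prod.snd h)
        simp only [Prod.fst_add, Pi.add_apply, pt_apply, if_true, if_neg hb0,
          if_neg (Ne.symm hq1)] at h0 h1
        by_contra hp
        rw [if_neg (fun e => hp e.symm)] at h0
        have hv : ∀ (s x y : ZMod 5), (x = 0 ∨ x = 1) → (y = 0 ∨ y = 1) →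
            0 + 0 = s + y → x + 1 = s + 0 → False := by decide
        refine hv (σ.1 (b, j)) (if (b, j) = p1 then 1 else 0) (if (b, j) = q0 then 1 else 0)
          ?_ ?_ h0 h1
        · split_ifs <;> simp
        · split_ifs <;> simp
      have h1 := val 1 (by decide)
      have h2 := val 2 (by decide)
      rw [h1] at h2
      have h3 : (1 : Fin 3) = 2 := congrArg Prod.snd h2
      exact absurd h3 (by decide)
    obtain ⟨j, hj⟩ := hex
    refine ⟨pt (b, j) - σ, ?_, by rw [add_sub_cancel, Psi_pt]⟩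
    intro p q hpq
    exact absurd hpq (hj p q)

end Gadget

end Pool.Agent.Work.MP_79fed9_lc
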