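import Pool.Agent.Work.MP_79fed9_lc.Design

namespace Pool.Agent.Work.MP_79fed9_lc

/-- The diversity cycles of a finite integral relation algebra with a flexible atom `f`:
`C a b c` stands for `c ≤ a;b`. -/
structure Cyc (D : Type) where
  cv : D → D
  C : D → D → D → Prop
  f : D
  cv_cv : ∀ a, cv (cv a) = a
  p1 : ∀ a b c, C a b c → C (cv a) c b
  p2 : ∀ a b c, C a b c → C c (cv b) a
  flex : ∀ a b, C a b f

namespace Cyc

variable {D : Type} (S : Cyc D)

lemma conv {a b c : D} (h : S.C a b c) : S.C (S.cv b) (S.cv a) (S.cv c) := by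
  have h1 := S.p1 _ _ _ h
  have h2 := S.p2 _ _ _ h1
  exact S.p1 _ _ _ h2

/-- The flexible atoms we use. -/
def Fl (x : D) : Prop := x = S.f ∨ x = S.cv S.f

lemma fl_cv {x : D} (h : S.Fl x) : S.Fl (S.cv x) := by
  rcases h with rfl | rfl
  · exact Or.inr rfl
  · left; exact S.cv_cv _

lemma fl3 {x : D} (h : S.Fl x) (a b : D) : S.C a b x := by
  rcases h with rfl | rfl
  · exact S.flex a b
  · have := S.conv (S.flex (S.cv b) (S.cv a))
    rwa [S.cv_cv, S.cv_cv] at this

lemma fl1 {x : D} (h : S.Fl x) (b c : D) : S.C x b c := by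
  have := S.p2 _ _ _ (S.fl3 h c (S.cv b))
  rwa [S.cv_cv] at this

lemma fl2 {x : D} (h : S.Fl x) (a c : D) : S.C a x c := by
  have := S.p1 _ _ _ (S.fl3 h (S.cv a) c)
  rwa [S.cv_cv] at this

end Cyc

/-- A labelled finite set realising the cycle structure. -/
structure Model {D : Type} (S : Cyc D) (U : Type) where
  lab : U → U → D
  l1 : ∀ x y, x ≠ y → lab y x = S.cv (lab x y)
  l2 : ∀ x y z, x ≠ y → y ≠ z → x ≠ z → S.C (lab x y) (lab y z) (lab x z)
  l3 : ∀ x z, x ≠ z → ∀ a b, S.C a b (lab x z) → ∃ y, y ≠ x ∧ y ≠ z ∧ lab x y = a ∧ lab y z = b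
  l4 : ∀ x a, ∃ y, y ≠ x ∧ lab x y = a

/-- A cluster: a labelled set `F` with a family of one-point types over it. -/
structure Cluster {D : Type} (S : Cyc D) (F L : Type) where
  lam : F → F → D
  phi : L → F → D
  c1 : ∀ h h', h ≠ h' → lam h' h = S.cv (lam h h')
  c2 : ∀ h h' h'', h ≠ h' → h' ≠ h'' → h ≠ h'' → S.C (lam h h') (lam h' h'') (lam h h'')
  c3 : ∀ l h h', h ≠ h' → S.C (lam h h') (phi l h') (phi l h)
  c4 : ∀ l h a b, S.C a b (phi l h) → ∃ h', h' ≠ h ∧ lam h h' = a ∧ phi l h' = b
  c5 : ∀ h h', h ≠ h' → ∀ a b, S.C a b (lam h h') → ∃ l, phi l h = a ∧ phi l h' = S.cv b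
  c6 : ∀ h a, ∃ l, phi l h = a

section Default

variable {D : Type} (S : Cyc D) {I : Type} (o : I → ℕ)

/-- Default flexible label, oriented by `o`. -/
def dfl (i j : I) : D := if o i < o j then S.f else S.cv S.f

lemma dfl_fl (i j : I) : S.Fl (dfl S o i j) := by
  unfold dfl
  split_ifs
  · exact Or.inl rfl
  · exact Or.inr rfl

lemma dfl_cv (ho : Function.Injective o) {i j : I} (h : i ≠ j) :
    dfl S o j i = S.cv (dfl S o i j) := by
  unfold dfl
  have hne : o i ≠ o j := fun e => h (ho e)
  rcases lt_or_gt_of_ne hne with h1 | h1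
  · rw [if_neg (by omega), if_pos h1]
  · rw [if_pos h1, if_neg (by omega), S.cv_cv]

end Default

section Glue

open Classical in
/-- The labelling of the glued structure on `I × Option F`; `none` marks the right vertices. -/
noncomputable def glab {D : Type} {S : Cyc D} {F L I : Type} (K : Cluster S F L) (o : I → ℕ)
    (Φ : I → I → L) : I × Option F → I × Option F → D
  | (i, some h), (j, some h') => if i = j then K.lam h h' else dfl S o i j
  | (i, some h), (j, none) => K.phi (Φ i j) h
  | (j, none), (i, some h) => S.cv (K.phi (Φ i j) h)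
  | (i, none), (j, none) => dfl S o i j

/-- Gluing copies of a cluster along a design gives a model. -/
noncomputable def glue {D : Type} {S : Cyc D} {F L I : Type} (K : Cluster S F L) [Nonempty F]
    [Nontrivial I] (o : I → ℕ) (ho : Function.Injective o) (Φ : I → I → L)
    (hrow : ∀ i i' : I, i ≠ i' → ∀ l l' : L, ∃ j, Φ i j = l ∧ Φ i' j = l')
    (hcol : ∀ j j' : I, j ≠ j' → ∀ l l' : L, ∃ i, Φ i j = l ∧ Φ i j' = l') :
    Model S (I × Option F) where
  lab := glab K o Φ
  l1 := by
    rintro ⟨i, _ | h⟩ ⟨j, _ | h'⟩ hne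
    · have : i ≠ j := by rintro rfl; exact hne rfl
      simp only [glab]
      exact dfl_cv S o ho this
    · simp only [glab, S.cv_cv]
    · simp only [glab]
    · simp only [glab]
      by_cases hij : i = j
      · subst hij
        have : h ≠ h' := by rintro rfl; exact hne rfl
        simp only [if_true]
        exact K.c1 h h' this
      · rw [if_neg hij, if_neg (Ne.symm hij)]
        exact dfl_cv S o ho hij
  l2 := by
    rintro ⟨i, _ | h⟩ ⟨j, _ | h'⟩ ⟨k, _ | h''⟩ h1 h2 h3
    · simp only [glab]
      exact S.fl1 (dfl_fl S o _ _) _ _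
    · simp only [glab]
      exact S.fl1 (dfl_fl S o _ _) _ _
    · simp only [glab]
      exact S.fl3 (dfl_fl S o _ _) _ _
    · -- none, some, some
      simp only [glab]
      by_cases hjk : j = k
      · subst hjk
        have hne : h' ≠ h'' := by rintro rfl; exact h2 rfl
        simp only [if_true]
        have := K.c3 (Φ j i) h' h'' hne
        -- C (lam h' h'') (phi h'') (phi h')
        have h4 := S.p1 _ _ _ this
        have h5 := S.conv h4
        rwa [S.cv_cv] at h5
      · rw [if_neg hjk]
        exact S.fl2 (dfl_fl S o _ _) _ _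
    · -- some, none, none
      simp only [glab]
      exact S.fl2 (dfl_fl S o _ _) _ _
    · -- some, none, some
      simp only [glab]
      by_cases hik : i = k
      · subst hik
        have hne : h ≠ h'' := by rintro rfl; exact h3 rfl
        simp only [if_true]
        have := K.c3 (Φ i j) h h'' hne
        exact S.p2 _ _ _ this
      · rw [if_neg hik]
        exact S.fl3 (dfl_fl S o _ _) _ _
    · -- some, some, none
      simp only [glab]
      by_cases hij : i = j
      · subst hij
        have hne : h ≠ h' := by rintro rfl; exact h1 rfl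
        simp only [if_true]
        exact K.c3 (Φ i k) h h' hne
      · rw [if_neg hij]
        exact S.fl1 (dfl_fl S o _ _) _ _
    · -- some, some, some
      simp only [glab]
      by_cases hij : i = j
      · subst hij
        have hne : h ≠ h' := by rintro rfl; exact h1 rfl
        by_cases hik : i = k
        · subst hik
          have hne2 : h' ≠ h'' := by rintro rfl; exact h2 rfl
          have hne3 : h ≠ h'' := by rintro rfl; exact h3 rfl
          simp only [if_true]
          exact K.c2 h h' h'' hne hne2 hne3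
        · simp only [if_true, if_neg hik]
          exact S.fl3 (dfl_fl S o _ _) _ _
      · rw [if_neg hij]
        exact S.fl1 (dfl_fl S o _ _) _ _
  l3 := by
    rintro ⟨i, _ | h⟩ ⟨k, _ | h''⟩ hne a b hC
    · -- none, none
      have hik : i ≠ k := by rintro rfl; exact hne rfl
      obtain ⟨h0⟩ := ‹Nonempty F›
      obtain ⟨l, hl⟩ := K.c6 h0 (S.cv a)
      obtain ⟨l', hl'⟩ := K.c6 h0 b
      obtain ⟨j, e1, e2⟩ := hcol i k hik l l'
      refine ⟨(j, some h0), by simp, by simp, ?_, ?_⟩
      · simp only [glab]
        rw [e1, hl, S.cv_cv]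
      · simp only [glab]
        rw [e2, hl']
    · -- none, some
      simp only [glab] at hC
      -- cv (phi h'') ≤ a;b ; converse
      have hC' := S.conv hC
      rw [S.cv_cv] at hC'
      obtain ⟨h', hne', e1, e2⟩ := K.c4 (Φ k i) h'' (S.cv b) (S.cv a) hC'
      refine ⟨(k, some h'), by simp, ?_, ?_, ?_⟩
      · intro e
        simp only [Prod.mk.injEq, Option.some.injEq, true_and] at e
        exact hne' e
      · simp only [glab]
        rw [e2, S.cv_cv]
      · simp only [glab, if_true]
        have := K.c1 h'' h' (Ne.symm hne')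
        rw [this, e1, S.cv_cv]
    · -- some, none
      simp only [glab] at hC
      obtain ⟨h', hne', e1, e2⟩ := K.c4 (Φ i k) h a b hC
      refine ⟨(i, some h'), ?_, by simp, ?_, ?_⟩
      · intro e
        simp only [Prod.mk.injEq, Option.some.injEq, true_and] at e
        exact hne' e
      · simp only [glab, if_true]
        exact e1
      · simp only [glab]
        exact e2
    · -- some, some
      by_cases hik : i = k
      · subst hik
        have hh : h ≠ h'' := by rintro rfl; exact hne rfl
        simp only [glab, if_true] at hC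
        obtain ⟨l, e1, e2⟩ := K.c5 h h'' hh a b hC
        obtain ⟨i', hi'⟩ := exists_ne i
        obtain ⟨j, e3, -⟩ := hrow i i' (Ne.symm hi') l l
        refine ⟨(j, none), by simp, by simp, ?_, ?_⟩
        · simp only [glab]
          rw [e3, e1]
        · simp only [glab]
          rw [e3, e2, S.cv_cv]
      · obtain ⟨l, hl⟩ := K.c6 h a
        obtain ⟨l', hl'⟩ := K.c6 h'' (S.cv b)
        obtain ⟨j, e1, e2⟩ := hrow i k hik l l'
        refine ⟨(j, none), by simp, by simp, ?_, ?_⟩
        · simp only [glab]
          rw [e1, hl]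
        · simp only [glab]
          rw [e2, hl', S.cv_cv]
  l4 := by
    rintro ⟨i, _ | h⟩ a
    · obtain ⟨h0⟩ := ‹Nonempty F›
      obtain ⟨l, hl⟩ := K.c6 h0 (S.cv a)
      obtain ⟨i', hi'⟩ := exists_ne i
      obtain ⟨j, e1, -⟩ := hcol i i' (Ne.symm hi') l l
      refine ⟨(j, some h0), by simp, ?_⟩
      simp only [glab]
      rw [e1, hl, S.cv_cv]
    · obtain ⟨l, hl⟩ := K.c6 h a
      obtain ⟨i', hi'⟩ := exists_ne i
      obtain ⟨j, e1, -⟩ := hrow i i' (Ne.symm hi') l l
      refine ⟨(j, none), by simp, ?_⟩
      simp only [glab]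
      rw [e1, hl]

/-- If there is a finite cluster, there is a finite model. -/
theorem model_of_cluster {D : Type} {S : Cyc D} {F L : Type} (K : Cluster S F L) [Finite F]
    [Nonempty F] [Finite L] [Nonempty L] :
    ∃ (U : Type) (_ : Finite U) (_ : Nonempty U), Nonempty (Model S U) := by
  obtain ⟨I, hI, hI2, Φ, hrow, hcol⟩ := exists_design L
  haveI := Fintype.ofFinite I
  have o := Fintype.equivFin I
  haveI : Nonempty I := ⟨(exists_pair_ne I).choose⟩
  exact ⟨I × Option F, inferInstance, inferInstance,
    ⟨glue K (fun i => (o i : ℕ)) (fun i j h => o.injective (Fin.ext h)) Φ hrow hcol⟩⟩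

end Glue

end Pool.Agent.Work.MP_79fed9_lc
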